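import Pool.Agent.R111.PG.Op

/-!
# MP_f6e9a2_nt (Paley graph conjecture): a given character, all weights, almost all affine images

For every prime, every nontrivial character `χ` and ALL sets `A`, `B` of size at least `p^ε` the
matrix `χ (a + g b)` on `A × B` has operator norm at most `p^(-δ) (|A||B|)^(1/2)` for all of the
`p (p - 1)` affine maps `g b = s + t b` with at most `p^(1-c)` exceptions. In particular for each of
the other maps the bound of the conjecture holds for all subsets of `A` and of `g B` of relative
density at least `p^(-δ)` simultaneously.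

The proof: the pairs `(y, y')` for which `|∑_a χ(a+y) conj χ(a+y')|` is large form a set `Z` with at
most `p^(1+o(1))` elements (Weil's bound). An exceptional map sends many pairs of elements of `B`
into `Z`. If there are more than `p^(1-c)` exceptional maps, then after pruning there is a set of
pairs `Z'` such that the moves `(y, y') → (y, y + r (y' - y))` and `(y, y') → (y' + r (y - y'), y')`,
where `r` is a random ratio `(b'' - b) / (b' - b)`, stay in `Z'` with large probability. For a point
`Y` the coordinate of `Y` in the frame `(y, y')` is multiplied by `1/r` by a move of the first kind,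
and the coordinate in the frame `(y', y)` by a move of the second kind. So the level sets of the
distribution of this coordinate are nearly invariant under the maps `x → u (1 - h x)` with
independent `u`, `h`, and for some `Y` one of the level sets is small and does not grow. This is
impossible by the theorem `Pool.Agent.R111.PG.no_fix`.
-/

namespace Pool.Agent.Results.MP_f6e9a2_nt.AllWeightsAffineImages

theorem result (ε : ℝ) (hε : 0 < ε) : ∃ c : ℝ, 0 < c ∧ ∃ δ : ℝ, 0 < δ ∧ ∃ p₀ : ℕ,
    ∀ (p : ℕ) [Fact p.Prime], p₀ ≤ p → ∀ χ : DirichletCharacter ℂ p, χ ≠ 1 →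
    ∀ A B : Finset (ZMod p), (p : ℝ) ^ ε ≤ A.card → (p : ℝ) ^ ε ≤ B.card →
      (({g : ZMod p × ZMod p | g.2 ≠ 0 ∧ ∃ α β : ZMod p → ℂ,
        (p : ℝ) ^ (-δ) * (Real.sqrt (A.card * B.card) * (Real.sqrt (∑ a ∈ A, ‖α a‖ ^ 2) *
          Real.sqrt (∑ b ∈ B, ‖β b‖ ^ 2))) <
            ‖∑ a ∈ A, ∑ b ∈ B, α a * β b * χ (a + (g.1 + g.2 * b))‖}.ncard : ℕ) : ℝ) ≤
        (p : ℝ) ^ (1 - c) :=
  Pool.Agent.R111.PG.few_affine ε hε

end Pool.Agent.Results.MP_f6e9a2_nt.AllWeightsAffineImages
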