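import Pool.Agent.R111.PG.Main

/-!
# MP_f6e9a2_nt (Paley graph conjecture): arbitrary sets, almost all characters, all weights

For every prime and ALL sets `A`, `B` of size at least `p^ε` the matrix `χ (a + b)` on `A × B` has
operator norm at most `p^(-δ) (|A||B|)^(1/2)` for all nontrivial characters `χ` with at most
`p^(1-c) / max(|A|,|B|)` exceptions. In particular for each of the other characters the bound of the
conjecture holds for all subsets of `A` and of `B` of relative density at least `p^(-δ)`
simultaneously. (Moments give at most `p^(1+ε) / min(|A|,|B|)` exceptions.)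

The proof: the fourth power of the norm is at most the sum of `χ` over the cross-ratios
`ρ = (a+b)(a'+b') / ((a'+b)(a+b'))`. If there are many exceptional characters, the products of two
such cross-ratios belong to a set `Z` with at most `p^c |A|` elements for many parameters. For fixed
`a', b'` one has `1 - ρ = g(a) h(b)`. So a set `S` with about `|A|` elements is nearly invariant under
many dilations with centre `0` and, with varying second cross-ratio, under many affine maps; their
commutators are translations. This is impossible by the expansion in the affine group (starting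
files, `Pool.Agent.Y881.SP`). The new counting theorem is `Pool.Agent.R111.PG.no_fix`.
-/

namespace Pool.Agent.Results.MP_f6e9a2_nt.AlmostAllCharacters

theorem result (ε : ℝ) (hε : 0 < ε) : ∃ c : ℝ, 0 < c ∧ ∃ δ : ℝ, 0 < δ ∧ ∃ p₀ : ℕ,
    ∀ (p : ℕ) [Fact p.Prime], p₀ ≤ p → ∀ A B : Finset (ZMod p),
    (p : ℝ) ^ ε ≤ A.card → (p : ℝ) ^ ε ≤ B.card →
    (({χ : DirichletCharacter ℂ p | χ ≠ 1 ∧ ∃ α β : ZMod p → ℂ,
      (p : ℝ) ^ (-δ) * (Real.sqrt (A.card * B.card) * (Real.sqrt (∑ a ∈ A, ‖α a‖ ^ 2) *
        Real.sqrt (∑ b ∈ B, ‖β b‖ ^ 2))) < ‖∑ a ∈ A, ∑ b ∈ B, α a * β b * χ (a + b)‖}.ncard : ℕ) :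
          ℝ) ≤ (p : ℝ) ^ (1 - c) / max (A.card : ℝ) B.card :=
  Pool.Agent.R111.PG.few_forms ε hε

end Pool.Agent.Results.MP_f6e9a2_nt.AlmostAllCharacters
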