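import Pool.Agent.R345.SS10

set_option autoImplicit false

/-!
# Double sums of Legendre symbols over two arbitrary sets, modulo almost all primes

The conjecture for the quadratic character holds for ARBITRARY sets of integers `A`, `B`, without any condition on
their structure, modulo all but few primes, with a power saving, and uniformly in all weights (so for all subsets
`A'` of `A` and `B'` of `B` at the same time).

(1) For all nonempty sets of integers `A`, `B` in `[-Q ^ K, Q ^ K]`, and `0 < κ ≤ 1`, there are at most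
`C κ⁻⁸ Q ((log Q) ^ 4 / min (|A|, |B|)) ^ c` odd primes `p ≤ Q` for which there are any complex weights `f`, `g` with
`|∑ f(a) g(b) (a + b | p)| > κ √(|A| |B|) ‖f‖ ‖g‖`.

(2) For all `K` and `ε > 0` there is `δ > 0` such that for all sets of integers `A`, `B` in `[-Q ^ K, Q ^ K]` with
at least `Q ^ ε` elements, and all odd primes `p ≤ Q`, with at most `Q ^ (1 - δ)` exceptions,
`|∑_{a ∈ A'} ∑_{b ∈ B'} (a + b | p)| ≤ Q ^ (-δ) √(|A| |B| |A'| |B'|)` for all subsets `A'` of `A` and `B'` of `B`.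
-/

namespace Pool.Agent.Results.MP_f6e9a2_nt.AlmostAllPrimes

open Finset

/-- the odd primes `p ≤ Q` modulo which some bilinear form is larger than `κ √(|A| |B|) ‖f‖ ‖g‖` -/
def Bad (Q : ℕ) (κ : ℝ) (A B : Finset ℤ) : Set ℕ :=
  {p : ℕ | p.Prime ∧ p ≠ 2 ∧ p ≤ Q ∧ ∃ f g : ℤ → ℂ,
    κ * Real.sqrt ((A.card : ℝ) * B.card) *
        (Real.sqrt (∑ a ∈ A, ‖f a‖ ^ 2) * Real.sqrt (∑ b ∈ B, ‖g b‖ ^ 2)) <
      ‖∑ a ∈ A, ∑ b ∈ B, f a * g b * (jacobiSym (a + b) p : ℂ)‖}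

open Pool.Agent.R345.SS in
lemma forms (Q : ℕ) (κ : ℝ) (A B : Finset ℤ) (hκ : 0 ≤ κ) (p : ℕ) (hp : p.Prime) (hp2 : p ≠ 2) (hpQ : p ≤ Q)
    (hgood : p ∉ badTr Q (κ ^ 4) A B) (f g : ℤ → ℂ) :
    ‖∑ a ∈ A, ∑ b ∈ B, f a * g b * (jacobiSym (a + b) p : ℂ)‖ ≤
      κ * Real.sqrt ((A.card : ℝ) * B.card) *
        (Real.sqrt (∑ a ∈ A, ‖f a‖ ^ 2) * Real.sqrt (∑ b ∈ B, ‖g b‖ ^ 2)) := by
  have h := good_forms Q κ A B hκ p hp hp2 hpQ hgood f g
  unfold J at h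
  simpa only [Complex.ofReal_intCast] using h

open Pool.Agent.R345.SS in
lemma bad_sub (Q : ℕ) (κ : ℝ) (A B : Finset ℤ) (hκ : 0 ≤ κ) : Bad Q κ A B ⊆ badTr Q (κ ^ 4) A B := by
  rintro p ⟨hp, hp2, hpQ, f, g, h⟩
  rw [mem_coe]
  by_contra hg
  exact absurd h (not_lt.2 (forms Q κ A B hκ p hp hp2 hpQ hg f g))

lemma sub_Icc {A : Finset ℤ} {M : ℤ} (h : ∀ a ∈ A, |a| ≤ M) : A ⊆ Icc (-M) M := by
  intro a ha
  rw [mem_Icc]
  exact abs_le.1 (h a ha)

open Pool.Agent.R345.SS in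
theorem result :
    (∀ K : ℕ, ∃ C : ℝ, 0 < C ∧ ∃ c : ℝ, 0 < c ∧ ∀ (Q : ℕ) (A B : Finset ℤ) (κ : ℝ), 3 ≤ Q →
      (∀ a ∈ A, |a| ≤ (Q : ℤ) ^ K) → (∀ b ∈ B, |b| ≤ (Q : ℤ) ^ K) → A.Nonempty → B.Nonempty →
      0 < κ → κ ≤ 1 →
      ((Bad Q κ A B).ncard : ℝ) ≤
        C / κ ^ 8 * Q * (Real.log Q ^ 4 / (min A.card B.card : ℕ)) ^ c) ∧
    (∀ (K : ℕ) (ε : ℝ), 0 < ε → ∃ δ : ℝ, 0 < δ ∧ ∃ Q₀ : ℕ, ∀ (Q : ℕ) (A B : Finset ℤ), Q₀ ≤ Q →
      (∀ a ∈ A, |a| ≤ (Q : ℤ) ^ K) → (∀ b ∈ B, |b| ≤ (Q : ℤ) ^ K) →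
      (Q : ℝ) ^ ε ≤ A.card → (Q : ℝ) ^ ε ≤ B.card →
      ∃ E : Finset ℕ, (E.card : ℝ) ≤ (Q : ℝ) ^ (1 - δ) ∧
        ∀ p : ℕ, p.Prime → p ≠ 2 → p ≤ Q → p ∉ E → ∀ A' ⊆ A, ∀ B' ⊆ B,
          |∑ a ∈ A', ∑ b ∈ B', (jacobiSym (a + b) p : ℝ)| ≤
            (Q : ℝ) ^ (-δ) * Real.sqrt ((A.card : ℝ) * B.card * ((A'.card : ℝ) * B'.card))) := by
  classical
  refine ⟨?_, ?_⟩
  · intro K
    obtain ⟨C, hC, h⟩ := bad_count K
    refine ⟨C, hC, 1 / (2 * (10 * (K : ℝ) + 2)), by positivity, ?_⟩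
    intro Q A B κ hQ hA hB hneA hneB hκ hκ1
    have hm : 1 ≤ min A.card B.card := le_min hneA.card_pos hneB.card_pos
    have h1 := h Q A B (min A.card B.card) (κ ^ 4) hQ (sub_Icc hA) (sub_Icc hB) hm (min_le_left _ _) (min_le_right _ _)
      (by positivity) (pow_le_one₀ hκ.le hκ1)
    have h2 : ((Bad Q κ A B).ncard : ℝ) ≤ ((badTr Q (κ ^ 4) A B).card : ℝ) := by
      rw [← Set.ncard_coe_finset]
      exact_mod_cast Set.ncard_le_ncard (bad_sub Q κ A B hκ.le) (finite_toSet _)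
    refine h2.trans ?_
    have e : (κ ^ 4) ^ 2 = κ ^ 8 := by ring
    rw [e] at h1
    have h3 : ((badTr Q (κ ^ 4) A B).card : ℝ) = (κ ^ 8 * ((badTr Q (κ ^ 4) A B).card : ℝ)) / κ ^ 8 := by
      field_simp
    rw [h3, div_le_iff₀ (by positivity)]
    refine h1.trans (le_of_eq ?_)
    have hκ8 : κ ^ 8 ≠ 0 := by positivity
    rw [div_mul_eq_mul_div, div_mul_eq_mul_div, div_mul_cancel₀ _ hκ8]
  · intro K ε hε
    obtain ⟨C, hC, h⟩ := bad_count K
    set c : ℝ := 1 / (2 * (10 * (K : ℝ) + 2)) with hc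
    have hc0 : 0 < c := by positivity
    have hev := (isLittleO_log_rpow_rpow_atTop (4 * c) (show (0 : ℝ) < c * ε / 2 by positivity)).def
      (show (0 : ℝ) < 1 / C by positivity)
    obtain ⟨x0, hx0⟩ := Filter.eventually_atTop.1 hev
    refine ⟨c * ε / 32, by positivity, max 3 ⌈x0⌉₊, ?_⟩
    intro Q A B hQ hA hB hcA hcB
    set δ : ℝ := c * ε / 32 with hδ
    have hQ3 : 3 ≤ Q := (le_max_left _ _).trans hQ
    have hQr : (3 : ℝ) ≤ Q := by exact_mod_cast hQ3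
    have hQ0 : (0 : ℝ) < Q := by linarith
    have hQx : x0 ≤ Q := (Nat.le_ceil x0).trans (by exact_mod_cast (le_max_right _ _).trans hQ)
    set L : ℝ := Real.log Q with hL
    have hL0 : 0 < L := Real.log_pos (by linarith)
    set κ : ℝ := (Q : ℝ) ^ (-δ) with hκ
    have hδ0 : 0 < δ := by positivity
    have hκ0 : 0 < κ := Real.rpow_pos_of_pos hQ0 _
    have hκ1 : κ ≤ 1 := Real.rpow_le_one_of_one_le_of_nonpos (by linarith) (by linarith)
    set m : ℕ := min A.card B.card with hm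
    have hmε : (Q : ℝ) ^ ε ≤ m := by
      rw [hm, Nat.cast_min]
      exact le_min hcA hcB
    have hQε1 : (1 : ℝ) ≤ (Q : ℝ) ^ ε := Real.one_le_rpow (by linarith) hε.le
    have hm1r : (1 : ℝ) ≤ m := hQε1.trans hmε
    have hm1 : 1 ≤ m := by exact_mod_cast hm1r
    have h1 := h Q A B m (κ ^ 4) hQ3 (sub_Icc hA) (sub_Icc hB) hm1 (min_le_left _ _) (min_le_right _ _)
      (by positivity) (pow_le_one₀ hκ0.le hκ1)
    refine ⟨badTr Q (κ ^ 4) A B, ?_, ?_⟩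
    · set N : ℝ := ((badTr Q (κ ^ 4) A B).card : ℝ) with hN
      have e1 : (κ ^ 4) ^ 2 = (Q : ℝ) ^ (-(8 * δ)) := by
        rw [← pow_mul, hκ, ← Real.rpow_natCast, ← Real.rpow_mul hQ0.le]
        congr 1
        push_cast
        ring
      have e2 : (L ^ 4 / (m : ℝ)) ^ c ≤ L ^ (4 * c) * (Q : ℝ) ^ (-(ε * c)) := by
        have h2 : L ^ 4 / (m : ℝ) ≤ L ^ (4 : ℝ) * (Q : ℝ) ^ (-ε) := by
          have h3 : L ^ (4 : ℝ) = L ^ 4 := by exact_mod_cast Real.rpow_natCast L 4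
          rw [h3, Real.rpow_neg hQ0.le, ← div_eq_mul_inv]
          exact div_le_div_of_nonneg_left (by positivity) (by linarith) hmε
        refine (Real.rpow_le_rpow (by positivity) h2 hc0.le).trans (le_of_eq ?_)
        rw [Real.mul_rpow (by positivity) (by positivity), ← Real.rpow_mul hL0.le, ← Real.rpow_mul hQ0.le]
        congr 2
        ring
      have e3 : C * L ^ (4 * c) ≤ (Q : ℝ) ^ (c * ε / 2) := by
        have h2 := hx0 Q hQx
        rw [Real.norm_of_nonneg (by positivity), Real.norm_of_nonneg (by positivity)] at h2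
        calc C * L ^ (4 * c) ≤ C * (1 / C * (Q : ℝ) ^ (c * ε / 2)) := mul_le_mul_of_nonneg_left h2 hC.le
          _ = _ := by field_simp
      have e4 : (Q : ℝ) ^ (-(8 * δ)) * N ≤ (Q : ℝ) ^ (c * ε / 2) * Q * (Q : ℝ) ^ (-(ε * c)) := by
        rw [← e1]
        refine h1.trans ?_
        calc C * (Q : ℝ) * (L ^ 4 / (m : ℝ)) ^ c ≤ C * Q * (L ^ (4 * c) * (Q : ℝ) ^ (-(ε * c))) :=
              mul_le_mul_of_nonneg_left e2 (by positivity)
          _ = (C * L ^ (4 * c)) * (Q * (Q : ℝ) ^ (-(ε * c))) := by ring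
          _ ≤ (Q : ℝ) ^ (c * ε / 2) * (Q * (Q : ℝ) ^ (-(ε * c))) := mul_le_mul_of_nonneg_right e3 (by positivity)
          _ = _ := by ring
      have e5 : N = (Q : ℝ) ^ (8 * δ) * ((Q : ℝ) ^ (-(8 * δ)) * N) := by
        rw [← mul_assoc, ← Real.rpow_add hQ0]
        simp
      rw [e5]
      calc (Q : ℝ) ^ (8 * δ) * ((Q : ℝ) ^ (-(8 * δ)) * N)
          ≤ (Q : ℝ) ^ (8 * δ) * ((Q : ℝ) ^ (c * ε / 2) * Q * (Q : ℝ) ^ (-(ε * c))) :=
            mul_le_mul_of_nonneg_left e4 (by positivity)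
        _ = (Q : ℝ) ^ (8 * δ + (c * ε / 2 + 1 + -(ε * c))) := by
            rw [Real.rpow_add hQ0, Real.rpow_add hQ0, Real.rpow_add hQ0, Real.rpow_one]
        _ ≤ _ := by
            refine Real.rpow_le_rpow_of_exponent_le (by linarith) ?_
            have : 0 < c * ε := by positivity
            rw [hδ]
            linarith
    · intro p hp hp2 hpQ hpE A' hA' B' hB'
      have h2 := forms Q κ A B hκ0.le p hp hp2 hpQ hpE (fun a => if a ∈ A' then 1 else 0) (fun b => if b ∈ B' then 1 else 0)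
      have h3 : ∀ S S' : Finset ℤ, S' ⊆ S → ∑ a ∈ S, ‖(if a ∈ S' then (1 : ℂ) else 0)‖ ^ 2 = S'.card := by
        intro S S' hS
        have h4 : ∀ a ∈ S, ‖(if a ∈ S' then (1 : ℂ) else 0)‖ ^ 2 = if a ∈ S' then (1 : ℝ) else 0 := by
          intro a _
          split_ifs <;> simp
        rw [sum_congr rfl h4, sum_boole, filter_mem_eq_inter, inter_eq_right.2 hS]
      rw [h3 A A' hA', h3 B B' hB'] at h2
      have h5 : ∑ a ∈ A, ∑ b ∈ B, (if a ∈ A' then (1 : ℂ) else 0) * (if b ∈ B' then (1 : ℂ) else 0) * (jacobiSym (a + b) p : ℂ) =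
          ((∑ a ∈ A', ∑ b ∈ B', (jacobiSym (a + b) p : ℝ) : ℝ) : ℂ) := by
        have h6 : ∀ a : ℤ, ∑ b ∈ B, (if a ∈ A' then (1 : ℂ) else 0) * (if b ∈ B' then (1 : ℂ) else 0) * (jacobiSym (a + b) p : ℂ) =
            if a ∈ A' then ∑ b ∈ B', (jacobiSym (a + b) p : ℂ) else 0 := by
          intro a
          split_ifs with ha
          · have h7 : ∀ b : ℤ, (1 : ℂ) * (if b ∈ B' then (1 : ℂ) else 0) * (jacobiSym (a + b) p : ℂ) =
                if b ∈ B' then (jacobiSym (a + b) p : ℂ) else 0 := by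
              intro b
              split_ifs <;> simp
            rw [sum_congr rfl fun b _ => h7 b, ← sum_filter, filter_mem_eq_inter, inter_eq_right.2 hB']
          · simp
        rw [sum_congr rfl fun a _ => h6 a, ← sum_filter, filter_mem_eq_inter, inter_eq_right.2 hA']
        push_cast
        rfl
      rw [h5, Complex.norm_real, Real.norm_eq_abs] at h2
      refine h2.trans (le_of_eq ?_)
      rw [Real.sqrt_mul (by positivity) ((A'.card : ℝ) * B'.card), Real.sqrt_mul (Nat.cast_nonneg A'.card)]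
      ring

end Pool.Agent.Results.MP_f6e9a2_nt.AlmostAllPrimes
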