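import Pool.Agent.R535.PG.Main

set_option autoImplicit false

/-!
# The Paley graph conjecture for all subsets of almost all sets, and all sets `B`

For every `ε > 0` there is `δ > 0` such that for every large prime `p`, every set `S` of residues and
every `n`, all but a proportion `exp (-p ^ δ)` of the `n`-element subsets `A` of `S` have the
following hereditary property: for ALL subsets `A'` of `A` with `|A'| ≥ p ^ ε` and
`|A'| ≥ n p ^ (1/2 + ε) / |S|`, ALL sets `B` with `|B| ≥ p ^ ε` and ALL nontrivial characters `χ`,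
`∑_{a ∈ A'} |∑_{b ∈ B} χ (a + b)| ≤ p ^ (-δ) |A'| |B|`.

For `S` the whole field and `n ≤ p ^ (1/2)` the second condition on `A'` is void, for `n = |S| = p`
it is the classical range. In general it is void if `|S| ≥ n p ^ (1/2)`: most subsets of size
`|S| / p ^ (1/2)` of an arbitrary set `S` of size at least `p ^ (1/2 + ε)` have the property for all
their subsets with at least `p ^ ε` elements.

Outline: a large sum over `A' × B` gives a large sum over `A' × B₀` for some `B₀ ⊆ B` with only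
`m = p ^ (ε/2)` elements, so at least `p ^ (-δ) |A'| / 2` elements of `A` belong to the set of all
`x` with `|∑_{b ∈ B₀} χ (x + b)| ≥ p ^ (-δ) m / 2`, which has at most `p ^ (1/2 + ε/4)` elements by
Weil's bound for high moments (starting files). For a random set `A` this has probability at most
`p ^ (-c p ^ (ε - δ))`, and there are at most `p ^ (m + 1)` pairs `(B₀, χ)`.
-/

namespace Pool.Agent.Results.MP_f6e9a2_nt.SubsetsOfTypicalSets

open Finset

open Classical in
theorem result (ε : ℝ) (hε : 0 < ε) : ∃ δ : ℝ, 0 < δ ∧ ∃ p₀ : ℕ, ∀ (p : ℕ) [Fact p.Prime],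
    p₀ ≤ p → ∀ (S : Finset (ZMod p)) (n : ℕ), n ≤ S.card →
      (((S.powersetCard n).filter (fun A => ¬ ∀ A' ⊆ A, (p : ℝ) ^ ε ≤ A'.card →
          (n : ℝ) * (p : ℝ) ^ (1 / 2 + ε) ≤ (A'.card : ℝ) * S.card →
          ∀ B : Finset (ZMod p), (p : ℝ) ^ ε ≤ B.card → ∀ χ : MulChar (ZMod p) ℂ, χ ≠ 1 →
            ∑ a ∈ A', ‖∑ b ∈ B, χ (a + b)‖ ≤
              (p : ℝ) ^ (-δ) * ((A'.card : ℝ) * B.card))).card : ℝ) ≤
        Real.exp (-(p : ℝ) ^ δ) * ((S.powersetCard n).card : ℝ) := by
  obtain ⟨δ, hδ, p₀, h⟩ := Pool.Agent.R535.PG.main ε hε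
  refine ⟨δ, hδ, p₀, fun p _ hp S n hn => le_trans ?_ (h p hp S n hn)⟩
  refine Nat.cast_le.2 (card_le_card fun A hA => ?_)
  obtain ⟨h1, h2⟩ := mem_filter.1 hA
  refine mem_filter.2 ⟨h1, fun h3 => h2 fun A' hA' h4 h5 B h6 χ h7 => ?_⟩
  have hAn : A.card = n := (mem_powersetCard.1 h1).2
  exact h3 A' hA' h4 (by rw [hAn]; exact h5) B h6 χ h7

end Pool.Agent.Results.MP_f6e9a2_nt.SubsetsOfTypicalSets
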